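import Mathlib
import Pool.Agent.H.MP_96ff56_al.B

set_option autoImplicit false

namespace Pool.Agent.Results.MP_96ff56_al.Counter

/-- tensors with `d` blocks of `n` factors, as multilinear forms on the dual space -/
abbrev T (d n : ℕ) (V : Type) [AddCommGroup V] [Module ℂ V] : Type :=
  MultilinearMap ℂ (fun _ : Fin d × Fin n => Module.Dual ℂ V) ℂ

variable {d n : ℕ} {V : Type} [AddCommGroup V] [Module ℂ V]

/-- membership in the `d`-th symmetric power of the `n`-th symmetric power -/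
def IsSym (t : T d n V) : Prop :=
  ∀ (σ : Equiv.Perm (Fin d)) (τ : Fin d → Equiv.Perm (Fin n)) (ξ : Fin d × Fin n → Module.Dual ℂ V),
    t (fun p => ξ (σ p.1, τ p.1 p.2)) = t ξ

/-- the general linear group acts on `t` through the `d`-th power of the determinant -/
def IsDet (t : T d n V) : Prop :=
  ∀ g : V ≃ₗ[ℂ] V, t.compLinearMap (fun _ => (g : V →ₗ[ℂ] V).dualMap) =
    LinearMap.det (g : V →ₗ[ℂ] V) ^ d • t

/-- the Hermite-Hadamard-Howe map: regroup, symmetrize in each new block and over the blocks -/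
noncomputable def hhh (t : T d n V) : T n d V :=
  ((n.factorial : ℂ) * (d.factorial : ℂ) ^ n)⁻¹ •
    ∑ ρ : Equiv.Perm (Fin n), ∑ π : Fin n → Equiv.Perm (Fin d),
      t.domDomCongr ((Equiv.prodComm _ _).trans (ρ.prodShear π))

theorem result :
    (∀ (d n : ℕ) (V : Type) [AddCommGroup V] [Module ℂ V] [FiniteDimensional ℂ V],
      Module.finrank ℂ V = n → Odd d → 2 ≤ n → ∀ t : T d n V, IsDet t → hhh t = 0) ∧
    ∀ (V : Type) [AddCommGroup V] [Module ℂ V] [FiniteDimensional ℂ V], Module.finrank ℂ V = 4 →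
      ∃ t : T 7 4 V, IsSym t ∧ IsDet t ∧ t ≠ 0 := by
  refine ⟨fun d n V _ _ _ hV hd hn t ht => ?_, fun V _ _ _ hV => ?_⟩
  · let u : T n d V := ∑ ρ : Equiv.Perm (Fin n), ∑ π : Fin n → Equiv.Perm (Fin d),
      t.domDomCongr ((Equiv.prodComm _ _).trans (ρ.prodShear π))
    have hu : ∀ ξ, u ξ = ∑ ρ : Equiv.Perm (Fin n), ∑ π : Fin n → Equiv.Perm (Fin d),
        t fun p => ξ (ρ p.2, π p.2 p.1) := by
      intro ξ
      simp only [u, MultilinearMap.sum_apply]
      rfl
    have h0 : u = 0 := by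
      refine H.MP_96ff56_al.van2 (Module.finBasisOfFinrankEq ℂ V hV) hd hn u (fun π' ξ => ?_)
        (fun ρ' ξ => ?_) fun g ξ => ?_
      · rw [hu, hu]
        exact Finset.sum_congr rfl fun ρ _ => Equiv.sum_comp (Equiv.mulLeft fun i => π' (ρ i))
          fun π : Fin n → Equiv.Perm (Fin d) => t fun p => ξ (ρ p.2, π p.2 p.1)
      · rw [hu, hu]
        exact Equiv.sum_comp (Equiv.mulLeft ρ') fun ρ : Equiv.Perm (Fin n) =>
          ∑ π : Fin n → Equiv.Perm (Fin d), t fun p => ξ (ρ p.2, π p.2 p.1)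
      · simp only [hu, Finset.mul_sum]
        exact Finset.sum_congr rfl fun ρ _ => Finset.sum_congr rfl fun π _ =>
          DFunLike.congr_fun (ht g) _
    exact (congrArg _ h0).trans (smul_zero _)
  · obtain ⟨t, h1, h2, h3⟩ := H.MP_96ff56_al.exi (Module.finBasisOfFinrankEq ℂ V hV)
    exact ⟨t, h1, fun g => MultilinearMap.ext fun ξ => h2 g ξ, h3⟩

end Pool.Agent.Results.MP_96ff56_al.Counter
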